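import Mathlib
import Pool.Agent.KS6_69.LCB.Num

/-!
# Latin cubes of every order with forbidden entries

Casselgren and Pham conjectured that there is `γ > 0` with `NE_4(n) ≥ γ n` for every `n ≥ 5`. We
prove the corresponding statement for arbitrary forbidden entries: an array `A` of sets of symbols
such that every cell has at most `k < γ n` forbidden symbols and every symbol is forbidden in at most
`k` cells of every line is avoided by a Latin cube of order `n`, for every order `n`; and even by
many pairwise disjoint Latin cubes.
-/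

set_option autoImplicit false

namespace Pool.Agent.Results.MP_7580b0_co.ForbiddenEntries

open Function Finset Pool.Agent.KS6_69.LCB

/-- `L` is a Latin cube of order `n`: every symbol occurs exactly once on every line. -/
def IsLatinCube {n : ℕ} (L : (Fin 3 → Fin n) → Fin n) : Prop :=
  ∀ (i : Fin 3) (x : Fin 3 → Fin n), Injective (fun a : Fin n => L (update x i a))

/-- `A x` is the set of the forbidden symbols of the cell `x`: at most `k` symbols are forbidden in
every cell, and every symbol is forbidden in at most `k` cells of every line. -/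
def AtMost {n : ℕ} (k : ℕ) (A : (Fin 3 → Fin n) → Finset (Fin n)) : Prop :=
  (∀ x, (A x).card ≤ k) ∧
  ∀ (i : Fin 3) (x : Fin 3 → Fin n) (s : Fin n),
    (univ.filter fun a : Fin n => s ∈ A (update x i a)).card ≤ k

/-- `H ∈ LHC(d + 1, n, k)`: a map `H : [n]^d × [k] → [n]` such that no symbol occurs twice on a line
(the lines in the `d` full directions, and the lines in the last direction). -/
def IsLHC (d n k : ℕ) (H : (Fin d → Fin n) → Fin k → Fin n) : Prop :=
  (∀ (i : Fin d) (x : Fin d → Fin n) (t : Fin k),
    Injective (fun a : Fin n => H (update x i a) t)) ∧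
  ∀ x : Fin d → Fin n, Injective (H x)

/-- one more layer can be added to `H` -/
def Extendible (d n k : ℕ) (H : (Fin d → Fin n) → Fin k → Fin n) : Prop :=
  ∃ H' : (Fin d → Fin n) → Fin (k + 1) → Fin n, IsLHC d n (k + 1) H' ∧
    ∀ (x : Fin d → Fin n) (t : Fin k), H' x t.castSucc = H x t

/-- some hypercuboid in `LHC(4, n, k)`, `1 ≤ k < n`, is not extendible -/
def NonExt4 (n k : ℕ) : Prop :=
  1 ≤ k ∧ k < n ∧ ∃ H : (Fin 3 → Fin n) → Fin k → Fin n, IsLHC 3 n k H ∧ ¬ Extendible 3 n k H

/-- From a cube on a set `X` of size `n` to a Latin cube of order `n`. -/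
theorem avoid_of_cube {n k : ℕ} {X : Type} [Fintype X] [DecidableEq X] (hX : Fintype.card X = n)
    (hc : ∀ F : Finset (Fin 4 → X), Sparse F k → ∃ L : Set (Fin 4 → X), IsCube L ∧ ∀ q ∈ L, q ∉ F)
    (A : (Fin 3 → Fin n) → Finset (Fin n)) (hA : AtMost k A) :
    ∃ L : (Fin 3 → Fin n) → Fin n, IsLatinCube L ∧ ∀ x, L x ∉ A x := by
  classical
  let e : X ≃ Fin n := Fintype.equivFinOfCardEq hX
  let F : Finset (Fin 4 → X) := univ.filter (fun q =>
    e (q (Fin.last 3)) ∈ A (fun i : Fin 3 => e (q i.castSucc)))
  have hF : Sparse F k := by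
    intro i t
    induction i using Fin.lastCases with
    | last =>
      refine le_trans (Finset.card_le_card_of_injOn (fun a => e a) ?_ ?_)
        (hA.1 (fun j : Fin 3 => e (t j.castSucc)))
      · intro a ha
        have ha' := (mem_filter.1 (mem_filter.1 (mem_coe.1 ha)).2).2
        simp only [update_self] at ha'
        have h1 : (fun j : Fin 3 => e (update t (Fin.last 3) a j.castSucc)) =
            (fun j : Fin 3 => e (t j.castSucc)) := by
          funext j
          rw [update_of_ne (Fin.castSucc_lt_last j).ne]
        rw [h1] at ha'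
        exact mem_coe.2 ha'
      · intro a _ b _ hab
        exact e.injective hab
    | cast i =>
      have h1 : ∀ c : X, (fun j : Fin 3 => e (update t i.castSucc c j.castSucc)) =
          update (fun j : Fin 3 => e (t j.castSucc)) i (e c) := by
        intro c
        funext j
        by_cases hj : j = i
        · subst hj; simp
        · have : (j.castSucc : Fin 4) ≠ i.castSucc := fun h => hj (Fin.castSucc_injective _ h)
          rw [update_of_ne this, update_of_ne hj]
      have h2 : ∀ c : X, update t i.castSucc c (Fin.last 3) = t (Fin.last 3) := by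
        intro c
        rw [update_of_ne (Fin.castSucc_lt_last i).ne']
      refine le_trans (Finset.card_le_card_of_injOn (fun a => e a) ?_ ?_)
        (hA.2 i (fun j : Fin 3 => e (t j.castSucc)) (e (t (Fin.last 3))))
      · intro a ha
        have ha' := (mem_filter.1 (mem_filter.1 (mem_coe.1 ha)).2).2
        rw [h1, h2] at ha'
        exact mem_coe.2 (mem_filter.2 ⟨mem_univ _, ha'⟩)
      · intro a _ b _ hab
        exact e.injective hab
  obtain ⟨L, hL, hLF⟩ := hc F hF
  -- the point of the cube above `x`
  let pt : (Fin 3 → Fin n) → Fin n → (Fin 4 → X) := fun x a =>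
    Fin.snoc (α := fun _ => X) (fun i => e.symm (x i)) (e.symm a)
  have hpt1 : ∀ x a, pt x a (Fin.last 3) = e.symm a := by
    intro x a
    exact Fin.snoc_last (α := fun _ => X) _ _
  have hpt2 : ∀ x a (j : Fin 3), pt x a j.castSucc = e.symm (x j) := by
    intro x a j
    exact Fin.snoc_castSucc (α := fun _ => X) _ _ _
  have hpt_last : ∀ x a c, update (pt x a) (Fin.last 3) c = pt x (e c) := by
    intro x a c
    simp only [pt, Fin.update_snoc_last, Equiv.symm_apply_apply]
  have hpt_cast : ∀ (x : Fin 3 → Fin n) a (i : Fin 3) c,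
      update (pt x a) i.castSucc c = pt (update x i (e c)) a := by
    intro x a i c
    funext j
    induction j using Fin.lastCases with
    | last => rw [update_of_ne (Fin.castSucc_lt_last i).ne', hpt1, hpt1]
    | cast j =>
      by_cases hj : j = i
      · subst hj
        rw [update_self, hpt2, update_self, Equiv.symm_apply_apply]
      · have : (j.castSucc : Fin 4) ≠ i.castSucc := fun h => hj (Fin.castSucc_injective _ h)
        rw [update_of_ne this, hpt2, hpt2, update_of_ne hj]
  have hnew : ∀ x : Fin 3 → Fin n, ∃ a : Fin n, pt x a ∈ L := by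
    intro x
    obtain ⟨c, hc, -⟩ := hL (Fin.last 3) (pt x (x 0))
    simp only [hpt_last] at hc
    exact ⟨e c, hc⟩
  choose new hnew using hnew
  have huniq : ∀ (i : Fin 3) (x : Fin 3 → Fin n) (s a b : Fin n), pt (update x i a) s ∈ L →
      pt (update x i b) s ∈ L → a = b := by
    intro i x s a b ha hb
    have h := (hL i.castSucc (pt x s)).unique (y₁ := e.symm a) (y₂ := e.symm b)
      (by rw [hpt_cast]; simpa using ha) (by rw [hpt_cast]; simpa using hb)
    exact e.symm.injective h
  refine ⟨new, ?_, ?_⟩
  · intro i x a b hab
    have ha := hnew (update x i a)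
    have hb := hnew (update x i b)
    have hab' : new (update x i a) = new (update x i b) := hab
    rw [← hab'] at hb
    exact huniq i x _ a b ha hb
  · intro x hx
    refine hLF _ (hnew x) (mem_filter.2 ⟨mem_univ _, ?_⟩)
    simp only [hpt1, hpt2, Equiv.apply_symm_apply]
    exact hx

/-- There is a Latin cube of every order. -/
theorem exists_latin (n : ℕ) : ∃ L : (Fin 3 → Fin n) → Fin n, IsLatinCube L := by
  rcases Nat.eq_zero_or_pos n with rfl | hn
  · exact ⟨fun x => x 0, fun i x => (x 0).elim0⟩
  · have : NeZero n := ⟨by omega⟩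
    refine ⟨fun x => x 0 + x 1 + x 2, ?_⟩
    intro i x a b hab
    have hi : i = 0 ∨ i = 1 ∨ i = 2 := by
      revert i; intro i; fin_cases i <;> simp
    rcases hi with rfl | rfl | rfl
    · simpa using hab
    · simpa using hab
    · simpa using hab

/-- One Latin cube avoiding the forbidden entries, for every order. -/
theorem one : ∃ γ : ℝ, 0 < γ ∧ ∀ n k : ℕ, (k : ℝ) < γ * n →
    ∀ A : (Fin 3 → Fin n) → Finset (Fin n), AtMost k A →
      ∃ L : (Fin 3 → Fin n) → Fin n, IsLatinCube L ∧ ∀ x, L x ∉ A x := by
  obtain ⟨M, N, hM, h⟩ := exists_cube_all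
  have hM' : (0 : ℝ) < M := by exact_mod_cast hM
  refine ⟨1 / (M + N : ℝ), by positivity, ?_⟩
  intro n k hlt A hA
  have hMN : (0 : ℝ) < (M + N : ℝ) := by positivity
  have h1 : (k : ℝ) * (M + N) < n := by
    have := mul_lt_mul_of_pos_right hlt hMN
    have e : 1 / (M + N : ℝ) * n * (M + N) = n := by field_simp
    rwa [e] at this
  have h2 : k * (M + N) < n := by exact_mod_cast h1
  rcases Nat.eq_zero_or_pos k with rfl | hk1
  · obtain ⟨L, hL⟩ := exists_latin n
    refine ⟨L, hL, fun x hx => ?_⟩
    have := hA.1 x
    rw [Nat.le_zero, Finset.card_eq_zero] at this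
    rw [this] at hx
    exact absurd hx (Finset.notMem_empty _)
  · have h3 : N ≤ n := by
      have : N ≤ k * (M + N) := by nlinarith
      omega
    have h4 : M * k < n := by nlinarith
    obtain ⟨X, _, _, hX, hc⟩ := h n h3 k h4
    exact avoid_of_cube hX hc A hA

theorem atMost_insert {n k : ℕ} (A : (Fin 3 → Fin n) → Finset (Fin n)) (hA : AtMost k A)
    (L : (Fin 3 → Fin n) → Fin n) (hL : IsLatinCube L) :
    AtMost (k + 1) (fun x => insert (L x) (A x)) := by
  constructor
  · intro x
    exact (Finset.card_insert_le _ _).trans (Nat.add_le_add_right (hA.1 x) 1)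
  · intro i x s
    have h1 : (univ.filter fun a : Fin n => s ∈ insert (L (update x i a)) (A (update x i a))) ⊆
        (univ.filter fun a : Fin n => s ∈ A (update x i a)) ∪
        (univ.filter fun a : Fin n => L (update x i a) = s) := by
      intro a ha
      rcases Finset.mem_insert.1 (mem_filter.1 ha).2 with h | h
      · exact mem_union_right _ (mem_filter.2 ⟨mem_univ _, h.symm⟩)
      · exact mem_union_left _ (mem_filter.2 ⟨mem_univ _, h⟩)
    refine (Finset.card_le_card h1).trans ((Finset.card_union_le _ _).trans
      (Nat.add_le_add (hA.2 i x s) ?_))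
    rw [Finset.card_le_one]
    intro a ha b hb
    exact hL i x ((mem_filter.1 ha).2.trans (mem_filter.1 hb).2.symm)

/-- Many disjoint Latin cubes. -/
theorem many {γ : ℝ} (h : ∀ n k : ℕ, (k : ℝ) < γ * n →
    ∀ A : (Fin 3 → Fin n) → Finset (Fin n), AtMost k A →
      ∃ L : (Fin 3 → Fin n) → Fin n, IsLatinCube L ∧ ∀ x, L x ∉ A x) (n l : ℕ) :
    ∀ k : ℕ, ((k : ℝ) + l < γ * n + 1) → ∀ A : (Fin 3 → Fin n) → Finset (Fin n), AtMost k A →
      ∃ L : Fin l → (Fin 3 → Fin n) → Fin n, (∀ j, IsLatinCube (L j)) ∧
        (∀ j x, L j x ∉ A x) ∧ ∀ x, Injective fun j => L j x := by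
  induction l with
  | zero =>
    intro k _ A _
    exact ⟨fun j => j.elim0, fun j => j.elim0, fun j => j.elim0, fun x j => j.elim0⟩
  | succ l ih =>
    intro k hk A hA
    push_cast at hk
    have hl : (0 : ℝ) ≤ l := Nat.cast_nonneg l
    obtain ⟨L₀, h0, h0A⟩ := h n k (by linarith) A hA
    obtain ⟨L, h1, h2, h3⟩ := ih (k + 1) (by push_cast; linarith) _ (atMost_insert A hA L₀ h0)
    refine ⟨Fin.cons L₀ L, ?_, ?_, ?_⟩
    · intro j
      induction j using Fin.cases with
      | zero => exact h0
      | succ j => exact h1 j
    · intro j x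
      induction j using Fin.cases with
      | zero => exact h0A x
      | succ j => exact fun hx => h2 j x (Finset.mem_insert_of_mem hx)
    · intro x i j hij
      induction i using Fin.cases with
      | zero =>
        induction j using Fin.cases with
        | zero => rfl
        | succ j =>
          exfalso
          refine h2 j x ?_
          have : L₀ x = L j x := hij
          rw [← this]
          exact Finset.mem_insert_self _ _
      | succ i =>
        induction j using Fin.cases with
        | zero =>
          exfalso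
          refine h2 i x ?_
          have : L i x = L₀ x := hij
          rw [this]
          exact Finset.mem_insert_self _ _
        | succ j =>
          have : L i x = L j x := hij
          rw [h3 x this]

theorem atMost_layers {n k m : ℕ} (A : (Fin 3 → Fin n) → Finset (Fin n)) (hA : AtMost m A)
    (H : (Fin 3 → Fin n) → Fin k → Fin n) (hH : IsLHC 3 n k H) :
    AtMost (m + k) (fun x => A x ∪ univ.image (H x)) := by
  constructor
  · intro x
    refine (Finset.card_union_le _ _).trans (Nat.add_le_add (hA.1 x) ?_)
    exact Finset.card_image_le.trans (by rw [Finset.card_univ, Fintype.card_fin])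
  · intro i x s
    have h1 : (univ.filter fun a : Fin n =>
        s ∈ A (update x i a) ∪ univ.image (H (update x i a))) ⊆
        (univ.filter fun a : Fin n => s ∈ A (update x i a)) ∪
        (univ.filter fun a : Fin n => ∃ t, H (update x i a) t = s) := by
      intro a ha
      rcases Finset.mem_union.1 (mem_filter.1 ha).2 with h | h
      · exact mem_union_left _ (mem_filter.2 ⟨mem_univ _, h⟩)
      · obtain ⟨t, -, ht⟩ := Finset.mem_image.1 h
        exact mem_union_right _ (mem_filter.2 ⟨mem_univ _, t, ht⟩)
    refine (Finset.card_le_card h1).trans ((Finset.card_union_le _ _).trans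
      (Nat.add_le_add (hA.2 i x s) ?_))
    have hch : ∀ a : {a : Fin n // ∃ t, H (update x i a) t = s}, ∃ t,
        H (update x i a.1) t = s := fun a => a.2
    choose f hf using hch
    have hinj : Injective f := by
      intro a b hab
      have ha := hf a
      have hb := hf b
      rw [← hab] at hb
      exact Subtype.ext (hH.1 i x (f a) (ha.trans hb.symm))
    have := Fintype.card_le_of_injective f hinj
    rw [Fintype.card_subtype, Fintype.card_fin] at this
    exact this

/-- Adding layers. -/
theorem layers {n k l : ℕ} (H : (Fin 3 → Fin n) → Fin k → Fin n) (hH : IsLHC 3 n k H)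
    (L : Fin l → (Fin 3 → Fin n) → Fin n) (h1 : ∀ j, IsLatinCube (L j))
    (h2 : ∀ j x, L j x ∉ univ.image (H x)) (h3 : ∀ x, Injective fun j => L j x) :
    IsLHC 3 n (k + l) (fun x => Fin.append (H x) fun j => L j x) := by
  have hne : ∀ x (t : Fin k) (j : Fin l), H x t ≠ L j x := by
    intro x t j h
    exact h2 j x (Finset.mem_image.2 ⟨t, mem_univ _, h⟩)
  constructor
  · intro i x t
    induction t using Fin.addCases with
    | left t =>
      intro a b hab
      simp only [Fin.append_left] at hab
      exact hH.1 i x t hab
    | right j =>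
      intro a b hab
      simp only [Fin.append_right] at hab
      exact h1 j i x hab
  · intro x s t hst
    beta_reduce at hst
    induction s using Fin.addCases with
    | left s =>
      induction t using Fin.addCases with
      | left t =>
        rw [Fin.append_left, Fin.append_left] at hst
        rw [hH.2 x hst]
      | right t =>
        rw [Fin.append_left, Fin.append_right] at hst
        exact absurd hst (hne x s t)
    | right s =>
      induction t using Fin.addCases with
      | left t =>
        rw [Fin.append_left, Fin.append_right] at hst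
        exact absurd hst.symm (hne x t s)
      | right t =>
        rw [Fin.append_right, Fin.append_right] at hst
        rw [h3 x hst]

/-- **Latin cubes of every order with forbidden entries.** There is `γ > 0` such that for every
order `n`:
(1) if `k + l < γ n + 1` and at most `k` symbols are forbidden in every cell of the cube, and every
symbol is forbidden in at most `k` cells of every line, then there are `l` pairwise disjoint Latin
cubes of order `n` without forbidden entries (for `l = 1` the condition is `k < γ n`);
(2) if `k + m + l < γ n + 1` then to every `4`-dimensional Latin hypercuboid of order `n` and height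
`k` one can add `l` layers which avoid a given array with at most `m` forbidden symbols in every
cell and at most `m` cells of every line in which a given symbol is forbidden;
(3) (the conjecture of Casselgren and Pham) `NE_4(n) ≥ γ n` for `n ≥ 5`. -/
theorem result : ∃ γ : ℝ, 0 < γ ∧
    (∀ n k l : ℕ, (k : ℝ) + l < γ * n + 1 →
      ∀ A : (Fin 3 → Fin n) → Finset (Fin n), AtMost k A →
      ∃ L : Fin l → (Fin 3 → Fin n) → Fin n, (∀ j, IsLatinCube (L j)) ∧
        (∀ j x, L j x ∉ A x) ∧ ∀ x, Injective fun j => L j x) ∧
    (∀ n k m l : ℕ, (k : ℝ) + m + l < γ * n + 1 →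
      ∀ H : (Fin 3 → Fin n) → Fin k → Fin n, IsLHC 3 n k H →
      ∀ A : (Fin 3 → Fin n) → Finset (Fin n), AtMost m A →
      ∃ H' : (Fin 3 → Fin n) → Fin (k + l) → Fin n, IsLHC 3 n (k + l) H' ∧
        (∀ x (t : Fin k), H' x (Fin.castAdd l t) = H x t) ∧
        ∀ x (j : Fin l), H' x (Fin.natAdd k j) ∉ A x) ∧
    (∀ n : ℕ, 5 ≤ n → ∀ k : ℕ, NonExt4 n k → γ * n ≤ k) := by
  obtain ⟨γ, hγ, h⟩ := one
  have h1 := fun (n k l : ℕ) (hk : (k : ℝ) + l < γ * n + 1) => many h n l k hk
  have h2 : ∀ n k m l : ℕ, (k : ℝ) + m + l < γ * n + 1 →
      ∀ H : (Fin 3 → Fin n) → Fin k → Fin n, IsLHC 3 n k H →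
      ∀ A : (Fin 3 → Fin n) → Finset (Fin n), AtMost m A →
      ∃ H' : (Fin 3 → Fin n) → Fin (k + l) → Fin n, IsLHC 3 n (k + l) H' ∧
        (∀ x (t : Fin k), H' x (Fin.castAdd l t) = H x t) ∧
        ∀ x (j : Fin l), H' x (Fin.natAdd k j) ∉ A x := by
    intro n k m l hk H hH A hA
    obtain ⟨L, a1, a2, a3⟩ := h1 n (m + k) l (by push_cast; linarith) _
      (atMost_layers A hA H hH)
    refine ⟨fun x => Fin.append (H x) fun j => L j x, layers H hH L a1
      (fun j x hx => a2 j x (Finset.mem_union_right _ hx)) a3, ?_, ?_⟩
    · intro x t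
      simp only [Fin.append_left]
    · intro x j
      simp only [Fin.append_right]
      exact fun hx => a2 j x (Finset.mem_union_left _ hx)
  refine ⟨γ, hγ, h1, h2, ?_⟩
  rintro n _ k ⟨_, _, H, hH, hext⟩
  by_contra hlt
  push Not at hlt
  obtain ⟨H', b1, b2, -⟩ := h2 n k 0 1 (by push_cast; linarith) H hH (fun _ => ∅)
    ⟨fun x => by simp, fun i x s => by simp⟩
  exact hext ⟨H', b1, fun x t => b2 x t⟩

end Pool.Agent.Results.MP_7580b0_co.ForbiddenEntries
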